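import Pool.Agent.Lib.MP_cacba2_co.Defs
import Pool.Agent.Lib.MP_cacba2_co.Main

/-!
Product sets `B ⊙ B` in a union of two shifts of a dense set.

The definitions `IsLeftFolner`, `IsRightFolner`, `IsTwoSidedFolner`, `upperDensity`,
`PosUpperBanachDensity`, `avg` and `SquareAbsCont` are in `Pool.Agent.Lib.MP_cacba2_co.Defs`.
-/

namespace Pool.Agent.Results.MP_cacba2_co.TwoShifts

open Pool.Agent.Lib.MP_cacba2_co

/-- `B ⊙ B = {b_i b_j : i ≠ j}`. -/
def odot {G : Type*} [Group G] (B : ℕ → G) : Set G :=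
  {x | ∃ i j : ℕ, i ≠ j ∧ x = B i * B j}

/-- `t⁻¹ A = {t⁻¹ a : a ∈ A}`. -/
def leftShift {G : Type*} [Group G] (t : G) (A : Set G) : Set G :=
  {x | ∃ a ∈ A, x = t⁻¹ * a}

/-- `A r⁻¹ = {a r⁻¹ : a ∈ A}`. -/
def rightShift {G : Type*} [Group G] (A : Set G) (r : G) : Set G :=
  {x | ∃ a ∈ A, x = a * r⁻¹}

/-- For every infinite square absolutely continuous group `G` and every `A ⊆ G` of positive upper
Banach density there are an infinite sequence `B` (with distinct terms, all in `A`) and `t, r ∈ G`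
with `B ⊙ B ⊆ t⁻¹ A ∪ A r⁻¹`; more precisely `b_i b_j ∈ t⁻¹ A` for `i < j` and
`b_i b_j ∈ A r⁻¹` for `i > j`. -/
theorem result (G : Type*) [Group G] [Infinite G] (hG : SquareAbsCont G) (A : Set G)
    (hA : PosUpperBanachDensity A) :
    ∃ (B : ℕ → G) (t r : G), (Set.range B).Infinite ∧
      odot B ⊆ leftShift t A ∪ rightShift A r ∧
      Function.Injective B ∧ (∀ n, B n ∈ A) ∧
      (∀ i j, i < j → B i * B j ∈ leftShift t A) ∧
      (∀ i j, j < i → B i * B j ∈ rightShift A r) := by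
  obtain ⟨B, t, r, hinj, hBA, hL, hR⟩ := main_theorem hG hA
  have h1 : ∀ i j, i < j → B i * B j ∈ leftShift t A := fun i j hij =>
    ⟨t * B i * B j, hL i j hij, by group⟩
  have h2 : ∀ i j, j < i → B i * B j ∈ rightShift A r := fun i j hij =>
    ⟨B i * B j * r, hR j i hij, by group⟩
  refine ⟨B, t, r, Set.infinite_range_of_injective hinj, ?_, hinj, hBA, h1, h2⟩
  rintro x ⟨i, j, hij, rfl⟩
  rcases lt_or_gt_of_ne hij with h | h
  · exact Or.inl (h1 i j h)
  · exact Or.inr (h2 i j h)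

end Pool.Agent.Results.MP_cacba2_co.TwoShifts
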